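import Mathlib

/-!
# Effective bounds for covers of curves of genus one: data and known facts
-/

namespace Pool.Agent.N522.ES

/-- Curves over number fields and their invariants. -/
structure Theory where
  /-- number fields -/
  Fld : Type
  /-- finite sets of places -/
  Pl : Fld → Type
  /-- smooth projective geometrically connected curves over `K` -/
  Curve : Fld → Type
  /-- reduced effective divisors on a curve, defined over `K` -/
  Dv : ∀ {K : Fld}, Curve K → Type
  genus : ∀ {K : Fld}, Curve K → ℕ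
  /-- degree of a divisor -/
  deg : ∀ {K : Fld} {Y : Curve K}, Dv Y → ℕ
  /-- stable Faltings height of the Jacobian -/
  hF : ∀ {K : Fld}, Curve K → ℝ
  /-- there is a point `x ∈ X(K̄)` with stable Arakelov height `h(x) ≤ c` -/
  Small : ∀ {K : Fld}, Curve K → ℝ → Prop
  /-- good reduction outside `T` -/
  Good : ∀ {K : Fld}, Curve K → Pl K → Prop
  /-- `(Y, B)` has good reduction outside `T`: outside `T`, `Y` has a smooth proper model in which
  the closure of `B` is étale over the base -/
  GoodPair : ∀ {K : Fld} (Y : Curve K), Dv Y → Pl K → Prop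
  /-- Belyi degree: the smallest degree of a morphism `X → ℙ¹` over `K̄` which is unramified outside
  `0, 1, ∞` -/
  degB : ∀ {K : Fld}, Curve K → ℕ
  /-- the smallest degree of a morphism `Y → ℙ¹` over `K̄` which is unramified outside `0, 1, ∞` and
  maps `B` to `{0, 1, ∞}` -/
  degBP : ∀ {K : Fld} (Y : Curve K), Dv Y → ℕ
  /-- there is a finite étale morphism `X → Y` over `K` of degree `d` -/
  Etale : ∀ {K : Fld}, Curve K → Curve K → ℕ → Prop
  /-- there is a finite morphism `X → Y` over `K`, geometrically cyclic of prime degree `ℓ`, with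
  branch divisor `B` -/
  Cyclic : ∀ {K : Fld} (_ Y : Curve K), ℕ → Dv Y → Prop
  /-- `T` together with the places above `ℓ` -/
  add : ∀ {K : Fld}, Pl K → ℕ → Pl K

/-- Elliptic curves with rational points, and the bounds of the known effective theorems. -/
structure Elliptic (T : Theory) where
  /-- elliptic curves over `L` -/
  Ell : T.Fld → Type
  /-- non-zero `L`-rational points -/
  Pt : ∀ {L : T.Fld}, Ell L → Type
  /-- good reduction outside a set of places -/
  GoodE : ∀ {L : T.Fld}, Ell L → T.Pl L → Prop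
  /-- the point is integral outside a set of places: it does not meet the zero section there -/
  Integral : ∀ {L : T.Fld} {E : Ell L}, Pt E → T.Pl L → Prop
  /-- stable Faltings height -/
  hE : ∀ {L : T.Fld}, Ell L → ℝ
  /-- Néron–Tate height -/
  hP : ∀ {L : T.Fld} {E : Ell L}, Pt E → ℝ
  /-- the number `degBP` for `E` and the divisor consisting of `0` and `r` points -/
  degE : ∀ {L : T.Fld} (E : Ell L) (r : ℕ), (Fin r → Pt E) → ℕ
  /-- the finite list of the extensions `L/K` of degree at most `r!` unramified outside `S`, with the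
  set of places of `L` above `S` (computable by Hermite's theorem) -/
  ext : ∀ K : T.Fld, T.Pl K → ℕ → Finset (Σ L : T.Fld, T.Pl L)
  /-- Coates' effective bound for the height of elliptic curves with good reduction outside `S` -/
  H1 : ∀ L : T.Fld, T.Pl L → ℝ
  /-- Baker and Coates' effective bound for the height of integral points -/
  H2 : ∀ L : T.Fld, T.Pl L → ℝ → ℝ
  /-- the effective bound of Belyi's theorem for elliptic curves with `r` points of bounded height -/
  D : T.Fld → ℕ → ℝ → ℝ → ℕ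

/-- Known facts about elliptic curves.

* `split`: if the points of `B` are rational over `L`, take one of them as origin;
* `coates`, `baker`, `belyi`: the effective theorems. -/
structure EllipticFacts (T : Theory) (F : Elliptic T) : Prop where
  split : ∀ (K : T.Fld) (Y : T.Curve K) (B : T.Dv Y) (S : T.Pl K) (r : ℕ), T.genus Y = 1 →
    T.deg B = r + 1 → T.GoodPair Y B S → ∃ x ∈ F.ext K S (r + 1), ∃ (E : F.Ell x.1)
      (Q : Fin r → F.Pt E), F.GoodE E x.2 ∧ (∀ i, F.Integral (Q i) x.2) ∧
        T.degBP Y B = F.degE E r Q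
  coates : ∀ (L : T.Fld) (E : F.Ell L) (S : T.Pl L), F.GoodE E S → F.hE E ≤ F.H1 L S
  baker : ∀ (L : T.Fld) (E : F.Ell L) (S : T.Pl L) (h : ℝ) (Q : F.Pt E), F.GoodE E S →
    F.hE E ≤ h → F.Integral Q S → F.hP Q ≤ F.H2 L S h
  belyi : ∀ (L : T.Fld) (E : F.Ell L) (r : ℕ) (Q : Fin r → F.Pt E) (h h' : ℝ), F.hE E ≤ h →
    (∀ i, F.hP (Q i) ≤ h') → F.degE E r Q ≤ F.D L r h h'

/-- Known facts about covers.

* `refl`: the identity is étale of degree one;
* `good_etale`, `good_cyclic`: Liu–Lorenzini: if `X → Y` is finite, `Y` has genus at least one and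
  `X` has good reduction at `v`, so does `Y`, and the morphism extends to smooth models; for cyclic
  covers of degree `ℓ` prime to `v` the branch divisor is étale;
* `rh_etale`, `rh_cyclic`: Riemann–Hurwitz;
* `belyi_etale`, `belyi_cyclic`: composition with a Belyi map;
* `line`: for cyclic covers of prime degree of curves of genus zero the Belyi degree is effectively
  bounded by `b0` (de Jong–Rémond). -/
structure CoverFacts (T : Theory) (b0 : ∀ K : T.Fld, T.Pl K → ℕ → ℕ) : Prop where
  refl : ∀ (K : T.Fld) (X : T.Curve K), T.Etale X X 1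
  good_etale : ∀ (K : T.Fld) (X Y : T.Curve K) (d : ℕ) (S : T.Pl K), T.Etale X Y d →
    1 ≤ T.genus Y → T.Good X S → T.Good Y S
  good_cyclic : ∀ (K : T.Fld) (X Y : T.Curve K) (ℓ : ℕ) (B : T.Dv Y) (S : T.Pl K),
    T.Cyclic X Y ℓ B → T.genus Y = 1 → 2 ≤ T.genus X → T.Good X S →
    T.GoodPair Y B (T.add S ℓ)
  rh_etale : ∀ (K : T.Fld) (X Y : T.Curve K) (d : ℕ), T.Etale X Y d → 1 ≤ T.genus Y →
    1 ≤ d ∧ T.genus X - 1 = d * (T.genus Y - 1)
  rh_cyclic : ∀ (K : T.Fld) (X Y : T.Curve K) (ℓ : ℕ) (B : T.Dv Y), T.Cyclic X Y ℓ B →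
    T.genus Y = 1 → 2 * T.genus X - 2 = T.deg B * (ℓ - 1)
  prime : ∀ (K : T.Fld) (X Y : T.Curve K) (ℓ : ℕ) (B : T.Dv Y), T.Cyclic X Y ℓ B → ℓ.Prime
  belyi_etale : ∀ (K : T.Fld) (X Y : T.Curve K) (d : ℕ), T.Etale X Y d →
    T.degB X ≤ d * T.degB Y
  belyi_cyclic : ∀ (K : T.Fld) (X Y : T.Curve K) (ℓ : ℕ) (B : T.Dv Y), T.Cyclic X Y ℓ B →
    T.degB X ≤ ℓ * T.degBP Y B
  line : ∀ (K : T.Fld) (X Y : T.Curve K) (ℓ : ℕ) (B : T.Dv Y) (S : T.Pl K), T.Cyclic X Y ℓ B →
    T.genus Y = 0 → T.Good X S → T.degB X ≤ b0 K S (T.genus X)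

/-- Javanpykar's theorem: `h_F(X) ≤ A g deg_B(X)^5` and there is a point `x` with
`h(x) ≤ A g deg_B(X)^5`, for all curves `X` of genus `g ≥ 2`. -/
def Javanpykar (T : Theory) (A : ℝ) : Prop :=
  0 ≤ A ∧ ∀ (K : T.Fld) (X : T.Curve K), 2 ≤ T.genus X →
    T.hF X ≤ A * T.genus X * (T.degB X : ℝ) ^ 5 ∧
    T.Small X (A * T.genus X * (T.degB X : ℝ) ^ 5)

/-- `h(x) ≤ c` and `c ≤ c'` imply `h(x) ≤ c'` -/
def SmallMono (T : Theory) : Prop :=
  ∀ (K : T.Fld) (X : T.Curve K) (c c' : ℝ), c ≤ c' → T.Small X c → T.Small X c'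

/-- Geometrically cyclic covers of prime degree of curves of genus at most one. -/
def CyclicOverLowGenus (T : Theory) {K : T.Fld} (X : T.Curve K) : Prop :=
  ∃ (Y : T.Curve K) (ℓ : ℕ) (B : T.Dv Y), T.Cyclic X Y ℓ B ∧ T.genus Y ≤ 1

/-- The class of the theorem: curves `X` with a finite étale morphism, over `K`, to a curve `X'` of
genus at least two which is a geometrically cyclic cover of prime degree of a curve of genus at most
one. -/
def InClass (T : Theory) {K : T.Fld} (X : T.Curve K) : Prop :=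
  ∃ (X' : T.Curve K) (d : ℕ), T.Etale X X' d ∧ 2 ≤ T.genus X' ∧ CyclicOverLowGenus T X'

/-- The effective bound for the Belyi degree of the cyclic covers of degree `ℓ` of curves of genus
one, of genus `g` and with good reduction outside `S`. -/
def boundPrime (T : Theory) (F : Elliptic T) (K : T.Fld) (S : T.Pl K) (g ℓ : ℕ) : ℕ :=
  ∑ x ∈ F.ext K (T.add S ℓ) ((2 * g - 2) / (ℓ - 1)),
    ℓ * F.D x.1 ((2 * g - 2) / (ℓ - 1) - 1) (F.H1 x.1 x.2) (F.H2 x.1 x.2 (F.H1 x.1 x.2))

/-- The effective bound for the Belyi degree of geometrically cyclic covers of prime degree of curves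
of genus at most one. -/
def boundLow (T : Theory) (F : Elliptic T) (b0 : ∀ K : T.Fld, T.Pl K → ℕ → ℕ) (K : T.Fld)
    (S : T.Pl K) (g : ℕ) : ℕ :=
  b0 K S g + ∑ ℓ ∈ Finset.range (2 * g), boundPrime T F K S g ℓ

/-- The effective bound for the Belyi degree of the curves in the class. -/
def bound (T : Theory) (F : Elliptic T) (b0 : ∀ K : T.Fld, T.Pl K → ℕ → ℕ) (K : T.Fld)
    (S : T.Pl K) (g : ℕ) : ℕ :=
  g * ∑ g' ∈ Finset.range (g + 1), boundLow T F b0 K S g'

end Pool.Agent.N522.ES
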