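import Pool.Agent.N522.ES.Defs

/-!
# Effective bounds for the Belyi degree
-/

namespace Pool.Agent.N522.ES

variable {T : Theory} {F : Elliptic T} {b0 : ∀ K : T.Fld, T.Pl K → ℕ → ℕ}

theorem degB_prime (hF : EllipticFacts T F) (hC : CoverFacts T b0) {K : T.Fld} (X Y : T.Curve K)
    (ℓ : ℕ) (B : T.Dv Y) (S : T.Pl K) (h : T.Cyclic X Y ℓ B) (hY : T.genus Y = 1)
    (hX : 2 ≤ T.genus X) (hg : T.Good X S) :
    T.degB X ≤ boundPrime T F K S (T.genus X) ℓ ∧ ℓ < 2 * T.genus X := by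
  have hp := hC.prime K X Y ℓ B h
  have hl : 1 ≤ ℓ - 1 := by have := hp.two_le; omega
  have hrh := hC.rh_cyclic K X Y ℓ B h hY
  have hr : (2 * T.genus X - 2) / (ℓ - 1) = T.deg B := by
    rw [hrh]
    exact Nat.mul_div_cancel _ hl
  have hr1 : 1 ≤ T.deg B := by
    rcases Nat.eq_zero_or_pos (T.deg B) with h0 | h0
    · rw [h0, zero_mul] at hrh
      omega
    · exact h0
  obtain ⟨r, hr2⟩ : ∃ r, T.deg B = r + 1 := ⟨T.deg B - 1, by omega⟩
  have hgp := hC.good_cyclic K X Y ℓ B S h hY hX hg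
  obtain ⟨x, hx, E, Q, hE, hQ, hdeg⟩ := hF.split K Y B _ r hY hr2 hgp
  have h1 := hF.coates x.1 E x.2 hE
  have h2 := fun i => hF.baker x.1 E x.2 _ (Q i) hE h1 (hQ i)
  have h3 := hF.belyi x.1 E r Q _ _ h1 h2
  constructor
  · refine (hC.belyi_cyclic K X Y ℓ B h).trans ?_
    rw [hdeg]
    refine (Nat.mul_le_mul_left ℓ h3).trans ?_
    unfold boundPrime
    rw [hr, hr2]
    have h4 : ∀ y ∈ F.ext K (T.add S ℓ) (r + 1), 0 ≤
        ℓ * F.D y.1 (r + 1 - 1) (F.H1 y.1 y.2) (F.H2 y.1 y.2 (F.H1 y.1 y.2)) :=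
      fun _ _ => Nat.zero_le _
    exact Finset.single_le_sum (f := fun y : (Σ L : T.Fld, T.Pl L) =>
      ℓ * F.D y.1 (r + 1 - 1) (F.H1 y.1 y.2) (F.H2 y.1 y.2 (F.H1 y.1 y.2))) h4 hx
  · have h5 : ℓ - 1 ≤ 2 * T.genus X - 2 := by
      rw [hrh]
      exact Nat.le_mul_of_pos_left _ hr1
    omega

theorem degB_low (hF : EllipticFacts T F) (hC : CoverFacts T b0) {K : T.Fld} (X : T.Curve K)
    (S : T.Pl K) (h : CyclicOverLowGenus T X) (hX : 2 ≤ T.genus X) (hg : T.Good X S) :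
    T.degB X ≤ boundLow T F b0 K S (T.genus X) := by
  obtain ⟨Y, ℓ, B, hc, hY⟩ := h
  unfold boundLow
  rcases Nat.lt_or_ge (T.genus Y) 1 with h0 | h1
  · have := hC.line K X Y ℓ B S hc (by omega) hg
    omega
  · obtain ⟨h2, h3⟩ := degB_prime hF hC X Y ℓ B S hc (by omega) hX hg
    have h4 : boundPrime T F K S (T.genus X) ℓ ≤
        ∑ m ∈ Finset.range (2 * T.genus X), boundPrime T F K S (T.genus X) m :=
      Finset.single_le_sum (f := fun m => boundPrime T F K S (T.genus X) m)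
        (fun _ _ => Nat.zero_le _) (Finset.mem_range.mpr h3)
    omega

/-- **Main theorem** on Belyi degrees. -/
theorem degB_class (hF : EllipticFacts T F) (hC : CoverFacts T b0) {K : T.Fld} (X : T.Curve K)
    (S : T.Pl K) (h : InClass T X) (hg : T.Good X S) :
    T.degB X ≤ bound T F b0 K S (T.genus X) ∧ 2 ≤ T.genus X := by
  obtain ⟨X', d, he, h2, hl⟩ := h
  have hg' := hC.good_etale K X X' d S he (by omega) hg
  obtain ⟨h0, hrh⟩ := hC.rh_etale K X X' d he (by omega)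
  have h3 := degB_low hF hC X' S hl h2 hg'
  have h6 : d ≤ T.genus X - 1 := by
    rw [hrh]
    exact Nat.le_mul_of_pos_right _ (by omega)
  have h7 : T.genus X' - 1 ≤ T.genus X - 1 := by
    rw [hrh]
    exact Nat.le_mul_of_pos_left _ h0
  refine ⟨?_, by omega⟩
  unfold bound
  have h8 : boundLow T F b0 K S (T.genus X') ≤
      ∑ m ∈ Finset.range (T.genus X + 1), boundLow T F b0 K S m :=
    Finset.single_le_sum (f := fun m => boundLow T F b0 K S m)
      (fun _ _ => Nat.zero_le _) (Finset.mem_range.mpr (by omega))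
  calc T.degB X ≤ d * T.degB X' := hC.belyi_etale K X X' d he
    _ ≤ T.genus X * ∑ m ∈ Finset.range (T.genus X + 1), boundLow T F b0 K S m :=
        Nat.mul_le_mul (by omega) (h3.trans h8)

theorem inClass_of_cyclic (hC : CoverFacts T b0) {K : T.Fld} (X : T.Curve K)
    (hX : 2 ≤ T.genus X) (h : CyclicOverLowGenus T X) : InClass T X :=
  ⟨X, 1, hC.refl K X, hX, h⟩

theorem inClass_of_etale {K : T.Fld} (X X' : T.Curve K) (d : ℕ)
    (he : T.Etale X X' d) (hX : 2 ≤ T.genus X') (h : CyclicOverLowGenus T X') : InClass T X :=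
  ⟨X', d, he, hX, h⟩

theorem bound_mono (hF : EllipticFacts T F) (hC : CoverFacts T b0) {A : ℝ} (hA : Javanpykar T A)
    {K : T.Fld} (S : T.Pl K) (X : T.Curve K) (h : InClass T X) (hg : T.Good X S) :
    A * T.genus X * (T.degB X : ℝ) ^ 5 ≤
      A * T.genus X * (bound T F b0 K S (T.genus X) : ℝ) ^ 5 := by
  obtain ⟨h1, -⟩ := degB_class hF hC X S h hg
  have h6 : (T.degB X : ℝ) ≤ (bound T F b0 K S (T.genus X) : ℝ) := by exact_mod_cast h1
  have h7 : (0 : ℝ) ≤ A * T.genus X := mul_nonneg hA.1 (Nat.cast_nonneg _)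
  exact mul_le_mul_of_nonneg_left (pow_le_pow_left₀ (Nat.cast_nonneg _) h6 5) h7

/-- the bound for the Faltings height -/
theorem bound_height (hF : EllipticFacts T F) (hC : CoverFacts T b0) {A : ℝ}
    (hA : Javanpykar T A) {K : T.Fld} (S : T.Pl K) (X : T.Curve K) (h : InClass T X)
    (hg : T.Good X S) : T.hF X ≤ A * T.genus X * (bound T F b0 K S (T.genus X) : ℝ) ^ 5 :=
  (hA.2 K X (degB_class hF hC X S h hg).2).1.trans (bound_mono hF hC hA S X h hg)

/-- the bound for a small point -/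
theorem bound_small (hF : EllipticFacts T F) (hC : CoverFacts T b0) {A : ℝ}
    (hA : Javanpykar T A) (hm : SmallMono T) {K : T.Fld} (S : T.Pl K) (X : T.Curve K)
    (h : InClass T X) (hg : T.Good X S) :
    T.Small X (A * T.genus X * (bound T F b0 K S (T.genus X) : ℝ) ^ 5) :=
  hm K X _ _ (bound_mono hF hC hA S X h hg) (hA.2 K X (degB_class hF hC X S h hg).2).2

end Pool.Agent.N522.ES
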